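import Pool.Agent.helper55.ZI.Spec2

/-!
# DEN: density for a simple module
-/

set_option autoImplicit false

namespace Pool.Agent.helper66.ZI

open Pool.Agent.ZI

universe u

theorem DEN : DEN_stmt.{u} := by
  intro A V _ _ _ _ b y z h
  have hz : z ∈ Submodule.span A {y} := by
    obtain ⟨C, hC⟩ := exists_isCompl (Submodule.span A {y})
    by_contra hn
    have hC' : IsCompl C (Submodule.span A {y}) := hC.symm
    obtain ⟨P, hP⟩ : ∃ P : (Fin b → V) →ₗ[A] (Fin b → V), ∀ x, P x = 0 ↔ x ∈ Submodule.span A {y} :=
      ⟨C.projection (Submodule.span A {y}) hC', fun x => Submodule.projection_apply_eq_zero_iff hC'⟩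
    have hp : P z ≠ 0 := fun h0 => hn ((hP z).1 h0)
    have hy : P y = 0 := (hP y).2 (Submodule.mem_span_singleton_self y)
    obtain ⟨i, hi⟩ := Function.ne_iff.1 hp
    have key : ∀ x : Fin b → V, ∑ j, ((LinearMap.proj i).comp
        (P.comp (LinearMap.single A (fun _ : Fin b => V) j))) (x j) = P x i := by
      intro x
      have e1 : x = ∑ j, LinearMap.single A (fun _ : Fin b => V) j (x j) := by
        funext k
        rw [Finset.sum_apply]
        simp [Pi.single_apply]
      conv_rhs => rw [e1, map_sum, Finset.sum_apply]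
      rfl
    have h1 := h (fun j => (LinearMap.proj i).comp
        (P.comp (LinearMap.single A (fun _ : Fin b => V) j))) (by
          rw [key y, hy]
          rfl)
    rw [key z] at h1
    exact hi h1
  obtain ⟨a, ha⟩ := Submodule.mem_span_singleton.1 hz
  exact ⟨a, fun i => congrFun ha i⟩

end Pool.Agent.helper66.ZI
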